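import Pool.Agent.Lib.MP_7e4769_co.Bip

namespace Pool.Agent.Results.MP_7e4769_co.BipartiteFour

/-- Every bipartite cubic graph has a 2-homogeneous colouring with at most 4 colours. -/
theorem result (V : Type) [Fintype V] (G : SimpleGraph V) [DecidableRel G.Adj]
    (hG : G.IsRegularOfDegree 3) (hB : G.IsBipartite) :
    ∃ c : V → Fin 4, (∀ u v : V, G.Adj u v → c u ≠ c v) ∧
      ∀ v : V, ((G.neighborFinset v).image c).card = 2 :=
  Pool.Agent.Lib.MP_7e4769_co.bipartite_four G hG hB

end Pool.Agent.Results.MP_7e4769_co.BipartiteFour
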