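import Pool.Agent.Lib.MP_7e4769_co.Sp.ZFinal

namespace Pool.Agent.Results.MP_7e4769_co.LocallySparse

/-- The question for locally sparse graphs: a cubic graph which has some 2-homogeneous colouring,
and in which each set of at most 100 vertices spans at most as many edges as vertices, has a
2-homogeneous colouring with at most 4 colours. -/
theorem result (V : Type) [Fintype V] (G : SimpleGraph V) [DecidableRel G.Adj]
    (hG : G.IsRegularOfDegree 3)
    (hs : ∀ A : Finset V, A.card ≤ 100 → {e ∈ G.edgeSet | ∀ v ∈ e, v ∈ A}.ncard ≤ A.card)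
    (_hc : ∃ c : V → ℕ, (∀ u v : V, G.Adj u v → c u ≠ c v) ∧
      ∀ v : V, ((G.neighborFinset v).image c).card = 2) :
    ∃ c : V → Fin 4, (∀ u v : V, G.Adj u v → c u ≠ c v) ∧
      ∀ v : V, ((G.neighborFinset v).image c).card = 2 := by
  classical
  exact Pool.Agent.Lib.MP_7e4769_co.Sp.sparse_all hG hs

end Pool.Agent.Results.MP_7e4769_co.LocallySparse
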